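import Pool.Agent.GK71.Sta
import Pool.Agent.V3R.Init

/-!
# The concrete cells (lem_ans 860)
-/

open Finset

set_option autoImplicit false
set_option linter.unusedSectionVars false

namespace Pool.Agent.FZ86

open Pool.Agent.Rl45 Pool.Agent.V3R Pool.Agent.GK71

variable {g n k : ℕ}

/-- the private row of a cell of a pure row -/
def prv (i : Fin g) (v : Fin n) : Rw g n := Sum.inr (i, v)

/-- the cells of the rows outside `M` -/
def Lc (M : Finset (Fin g)) : Finset (Rw g n × Fin n) :=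
  (Mᶜ ×ˢ (univ : Finset (Fin n))).image fun p => ((Sum.inl p.1 : Rw g n), p.2)

theorem mem_Lc {M : Finset (Fin g)} {e : Rw g n × Fin n} :
    e ∈ Lc M ↔ ∃ c, c ∉ M ∧ e.1 = Sum.inl c := by
  unfold Lc
  rw [mem_image]
  constructor
  · rintro ⟨⟨c, v⟩, h, rfl⟩
    exact ⟨c, mem_compl.1 (mem_product.1 h).1, rfl⟩
  · rintro ⟨c, hc, h⟩
    exact ⟨(c, e.2), mem_product.2 ⟨mem_compl.2 hc, mem_univ _⟩, Prod.ext h.symm rfl⟩

theorem Lc_inl {M : Finset (Fin g)} {c : Fin g} {v : Fin n} :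
    ((Sum.inl c, v) : Rw g n × Fin n) ∈ Lc M ↔ c ∉ M := by
  rw [mem_Lc]
  constructor
  · rintro ⟨c', h, h'⟩
    have h1 : c = c' := Sum.inl_injective h'
    rw [h1]
    exact h
  · intro h
    exact ⟨c, h, rfl⟩

theorem ctx {B : Fin g → Fin n → Fin k} (hB : ∀ i, Function.Injective (B i))
    (M : Finset (Fin g)) : Ctx (ext B) (Lc M) prv where
  lat := ext_injective hB
  sec := fun i _ _ h => hB i h
  inj := fun _ _ _ _ h => Prod.mk.inj (Sum.inr_injective h)
  prL := by
    intro i v e he h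
    obtain ⟨c, -, h1⟩ := mem_Lc.1 he
    rw [h] at h1
    exact Sum.inr_ne_inl h1

theorem ext_prv {B : Fin g → Fin n → Fin k} (i : Fin g) (v : Fin n) :
    ext B (prv i v) v = B i v := rfl

end Pool.Agent.FZ86
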