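import Pool.Agent.FZ86.Start
import Pool.Agent.CG61.Final

/-!
# All numbers of symbols
-/

open Finset

set_option autoImplicit false
set_option linter.unusedSectionVars false

namespace Pool.Agent.FZ86

open Pool.Agent.Rl45 Pool.Agent.V3R Pool.Agent.GK71

/-- the number of pure rows that is needed -/
def qn (n : ℕ) : ℕ :=
  (3 * n + 3) * (n + 1) + 4 * (n * D0 n) + n * (D0 n + 2 * n) + 2 * n + 3 * n

theorem qn_le {n : ℕ} (hn : 1 ≤ n) : qn n ≤ 700000 * (n ^ 2 * (Nat.log 2 n + 1) ^ 2) := by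
  set l := Nat.log 2 n + 1 with hl
  have h1 : D0 n ≤ 131072 * n * l ^ 2 := min_le_right _ _
  have h2 : n * D0 n ≤ 131072 * (n ^ 2 * l ^ 2) := by
    calc n * D0 n ≤ n * (131072 * n * l ^ 2) := Nat.mul_le_mul_left _ h1
      _ = 131072 * (n ^ 2 * l ^ 2) := by ring
  have h3 : n ^ 2 ≤ n ^ 2 * l ^ 2 := Nat.le_mul_of_pos_right _ (by positivity)
  have h4 : n ≤ n ^ 2 := by
    rw [sq]
    exact Nat.le_mul_of_pos_right _ hn
  have h5 : 1 ≤ n ^ 2 := hn.trans h4
  have h6 : qn n = 5 * (n * D0 n) + 5 * n ^ 2 + 11 * n + 3 := by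
    unfold qn
    ring
  rw [h6]
  omega

/-- The exact number for all `k`. -/
theorem all_k {m n k : ℕ} (hn : 1 ≤ n) (hm : 2 ^ 29 * (n ^ 2 * (Nat.log 2 n + 1) ^ 2) < m)
    (A : Fin m → Fin n → Fin k) (hA : ∀ i, Function.Injective (A i)) :
    ∃ T : Fin (m - (n - 1)) → Fin n → Fin m,
      (∀ s, Function.Injective (T s)) ∧
      (∀ s, Function.Injective (fun j => A (T s j) j)) ∧
      ∀ j, Function.Injective (fun s => T s j) := by
  refine CG61.all_k_of_start (qn n) (qn_le hn) ?_ hn hm A hA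
  intro g B hB M' hM'
  obtain ⟨P, Jp, x, h1, h2, h3, h4⟩ := start (R₀ := 3 * n) (c := 3 * n) hn hB M' (by omega)
    (by unfold qn at hM'; exact hM')
  rw [Fintype.card_fin]
  exact ⟨3 * n, D0 n, P, Jp, x, by omega, h1, h2, h3, h4⟩

end Pool.Agent.FZ86
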