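import Mathlib

/-!
# Closing the pool (lem_ans 860, block (A))

`b : I → V → S` are injective rows, `QQ` is the pool, `RR` the reserve, `W` a set of symbols that
occur in every row of the pool.  As long as some symbol outside `W` is missed by at most `R1` rows
of the pool, it is put into `W` and these rows go to the reserve.
-/

open Finset

set_option autoImplicit false
set_option linter.unusedSectionVars false

namespace Pool.Agent.FZ86

variable {I V S : Type*} [DecidableEq I] [Fintype V] [DecidableEq S]

/-- the rows of `Q` in which the symbol `z` does not occur -/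
def miss (b : I → V → S) (Q : Finset I) (z : S) : Finset I :=
  Q.filter fun i => z ∉ univ.image (b i)

theorem mem_miss {b : I → V → S} {Q : Finset I} {z : S} {i : I} :
    i ∈ miss b Q z ↔ i ∈ Q ∧ ∀ v, b i v ≠ z := by
  unfold miss
  rw [mem_filter, mem_image]
  simp

theorem miss_subset {b : I → V → S} {Q : Finset I} {z : S} : miss b Q z ⊆ Q := filter_subset _ _

theorem miss_mono {b : I → V → S} {Q Q' : Finset I} (h : Q ⊆ Q') (z : S) :
    miss b Q z ⊆ miss b Q' z := filter_subset_filter _ h

/-- rows that contain `W`: the size of `W` -/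
theorem card_le_of_row {b : I → V → S} {W : Finset S} {i : I}
    (h : ∀ z ∈ W, ∃ v, b i v = z) : W.card ≤ Fintype.card V := by
  have h1 : W ⊆ univ.image (b i) := by
    intro z hz
    obtain ⟨v, hv⟩ := h z hz
    exact mem_image.2 ⟨v, mem_univ _, hv⟩
  calc W.card ≤ (univ.image (b i)).card := card_le_card h1
    _ ≤ (univ : Finset V).card := card_image_le
    _ = Fintype.card V := card_univ

/-- a row that contains the `n` symbols of `W` has no other symbol -/
theorem eq_of_card {b : I → V → S} (hb : ∀ i, Function.Injective (b i)) {W : Finset S} {i : I}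
    (h : ∀ z ∈ W, ∃ v, b i v = z) (hW : Fintype.card V ≤ W.card) (v : V) : b i v ∈ W := by
  have h1 : W ⊆ univ.image (b i) := by
    intro z hz
    obtain ⟨v, hv⟩ := h z hz
    exact mem_image.2 ⟨v, mem_univ _, hv⟩
  have h2 : W = univ.image (b i) := by
    refine eq_of_subset_of_card_le h1 ?_
    rw [card_image_of_injective _ (hb i), card_univ]
    exact hW
  rw [h2]
  exact mem_image_of_mem _ (mem_univ _)

/-- Closing the pool. -/
theorem close (b : I → V → S) (hb : ∀ i, Function.Injective (b i)) {R1 R0 : ℕ}
    {QQ RR : Finset I} {W : Finset S}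
    (hW : ∀ i ∈ QQ, ∀ z ∈ W, ∃ v, b i v = z)
    (hm : ∀ z ∉ W, R0 ≤ (miss b (RR ∪ QQ) z).card)
    (hc : R1 * (Fintype.card V + 1 - W.card) < QQ.card) :
    ∃ (QQ' : Finset I) (W' : Finset S), QQ' ⊆ QQ ∧ W ⊆ W' ∧ W'.card ≤ Fintype.card V ∧
      (∀ i ∈ QQ', ∀ z ∈ W', ∃ v, b i v = z) ∧
      (∀ z ∉ W', R1 < (miss b QQ' z).card) ∧
      (∀ z ∈ W', z ∉ W → R0 ≤ (miss b (RR ∪ (QQ \ QQ')) z).card) ∧
      R1 * (Fintype.card V + 1 - W'.card) < QQ'.card ∧
      QQ.card + R1 * W.card ≤ QQ'.card + R1 * W'.card := by
  classical
  obtain ⟨d, hd⟩ : ∃ d, d = Fintype.card V + 1 - W.card := ⟨_, rfl⟩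
  induction d generalizing QQ RR W with
  | zero =>
    exfalso
    obtain ⟨i, hi⟩ : QQ.Nonempty := card_pos.1 (by omega)
    have h1 := card_le_of_row (hW i hi)
    omega
  | succ d ih =>
    obtain ⟨i, hi⟩ : QQ.Nonempty := card_pos.1 (by omega)
    have h1 := card_le_of_row (hW i hi)
    by_cases hz : ∀ z ∉ W, R1 < (miss b QQ z).card
    · refine ⟨QQ, W, subset_refl _, subset_refl _, h1, hW, hz, ?_, hc, le_refl _⟩
      intro z h2 h3
      exact absurd h2 h3
    · push Not at hz
      obtain ⟨z, hzW, hz⟩ := hz
      -- the size of `W`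
      have h2 : W.card < Fintype.card V := by
        by_contra h3
        rw [not_lt] at h3
        have h4 : miss b QQ z = QQ := by
          apply subset_antisymm miss_subset
          intro i' hi'
          rw [mem_miss]
          refine ⟨hi', fun v hv => hzW ?_⟩
          rw [← hv]
          exact eq_of_card hb (hW i' hi') h3 v
        rw [h4] at hz
        have h5 : R1 * 1 ≤ R1 * (Fintype.card V + 1 - W.card) :=
          Nat.mul_le_mul_left _ (by omega)
        omega
      have h6 : (insert z W).card = W.card + 1 := card_insert_of_notMem hzW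
      have h7 : (QQ \ miss b QQ z).card + (miss b QQ z).card = QQ.card :=
        card_sdiff_add_card_eq_card miss_subset
      have h8 : R1 * (Fintype.card V + 1 - W.card) =
          R1 * (Fintype.card V + 1 - (insert z W).card) + R1 := by
        have : Fintype.card V + 1 - W.card = (Fintype.card V + 1 - (insert z W).card) + 1 := by
          omega
        rw [this, Nat.mul_add, Nat.mul_one]
      obtain ⟨QQ', W', g1, g2, g3, g4, g5, g6, g7, g8⟩ := ih (QQ := QQ \ miss b QQ z)
        (RR := RR ∪ miss b QQ z) (W := insert z W) (by
          intro i' hi' y hy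
          rw [mem_sdiff] at hi'
          rcases mem_insert.1 hy with rfl | hy
          · by_contra h9
            push Not at h9
            exact hi'.2 (mem_miss.2 ⟨hi'.1, h9⟩)
          · exact hW i' hi'.1 y hy) (by
          intro y hy
          rw [mem_insert, not_or] at hy
          have h9 : RR ∪ miss b QQ z ∪ QQ \ miss b QQ z = RR ∪ QQ := by
            rw [union_assoc, union_sdiff_of_subset miss_subset]
          rw [h9]
          exact hm y hy.2) (by omega) (by omega)
      refine ⟨QQ', W', g1.trans sdiff_subset, (subset_insert _ _).trans g2, g3, g4, g5, ?_, g7, ?_⟩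
      · intro y hy hyW
        have h10 : RR ∪ miss b QQ z ∪ (QQ \ miss b QQ z) \ QQ' = RR ∪ QQ \ QQ' := by
          ext x
          simp only [mem_union, mem_sdiff]
          constructor
          · rintro ((h | h) | h)
            · exact Or.inl h
            · exact Or.inr ⟨miss_subset h, fun h' => (mem_sdiff.1 (g1 h')).2 h⟩
            · exact Or.inr ⟨h.1.1, h.2⟩
          · rintro (h | h)
            · exact Or.inl (Or.inl h)
            · by_cases h' : x ∈ miss b QQ z
              · exact Or.inl (Or.inr h')
              · exact Or.inr ⟨⟨h.1, h'⟩, h.2⟩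
        rw [← h10]
        by_cases hyz : y = z
        · subst hyz
          refine (hm y hyW).trans (card_le_card ?_)
          intro x hx
          rw [mem_miss, mem_union] at hx
          rw [mem_miss, mem_union, mem_union]
          refine ⟨?_, hx.2⟩
          rcases hx.1 with h | h
          · exact Or.inl (Or.inl h)
          · exact Or.inl (Or.inr (mem_miss.2 ⟨h, hx.2⟩))
        · exact g6 y hy (by
            rw [mem_insert, not_or]
            exact ⟨hyz, hyW⟩)
      · have h11 : R1 * (insert z W).card = R1 * W.card + R1 := by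
          rw [h6, Nat.mul_add, Nat.mul_one]
        omega

end Pool.Agent.FZ86
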