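import Pool.Agent.FZ86.Close

/-!
# The false names at the start (lem_ans 860, block (E))
-/

open Finset

set_option autoImplicit false
set_option linter.unusedSectionVars false

namespace Pool.Agent.FZ86

variable {g n k : ℕ} {B : Fin g → Fin n → Fin k} {M : Finset (Fin g)} {P : Finset (Fin k)}

/-- the poor columns -/
def poor (B : Fin g → Fin n → Fin k) (M : Finset (Fin g)) (P : Finset (Fin k)) (τ : ℕ) :
    Finset (Fin n) :=
  univ.filter fun v => (Mᶜ.filter fun c => B c v ∉ P).card ≤ τ

/-- the cells of a row in `J` with a symbol outside `P` -/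
def Ac (B : Fin g → Fin n → Fin k) (P : Finset (Fin k)) (J : Finset (Fin n)) (c : Fin g) :
    Finset (Fin n) :=
  J.filter fun v => B c v ∉ P

/-- the number of false names in a row -/
def del (B : Fin g → Fin n → Fin k) (P : Finset (Fin k)) (J : Finset (Fin n)) (c : Fin g) : ℕ :=
  (Ac B P J c).card - (n + 1 - P.card)

theorem sum_Ac_le {τ : ℕ} :
    ∑ c ∈ Mᶜ, (Ac B P (poor B M P τ) c).card ≤ n * τ := by
  classical
  have h1 : ∑ c ∈ Mᶜ, (Ac B P (poor B M P τ) c).card =
      ∑ v ∈ poor B M P τ, (Mᶜ.filter fun c => B c v ∉ P).card := by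
    simp only [Ac, card_filter]
    exact sum_comm
  rw [h1]
  calc ∑ v ∈ poor B M P τ, (Mᶜ.filter fun c => B c v ∉ P).card
      ≤ ∑ _v ∈ poor B M P τ, τ := sum_le_sum fun v hv => (mem_filter.1 hv).2
    _ = (poor B M P τ).card * τ := by rw [sum_const, smul_eq_mul]
    _ ≤ n * τ := Nat.mul_le_mul_right _ (by
        have := card_le_univ (poor B M P τ)
        rwa [Fintype.card_fin] at this)

theorem sum_del_le {τ : ℕ} : ∑ c ∈ Mᶜ, del B P (poor B M P τ) c ≤ n * τ :=
  (sum_le_sum fun _ _ => Nat.sub_le _ _).trans sum_Ac_le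

theorem del_le (J : Finset (Fin n)) (c : Fin g) :
    del B P J c ≤ (P.filter fun y => ∀ v, B c v ≠ y).card := by
  classical
  have h1 : (P.filter fun y => ¬ ∀ v, B c v ≠ y).card + (Ac B P J c).card ≤ n := by
    have h2 : (P.filter fun y => ¬ ∀ v, B c v ≠ y).card ≤
        (univ.filter fun v : Fin n => B c v ∈ P).card := by
      have h3 : (P.filter fun y => ¬ ∀ v, B c v ≠ y) ⊆
          (univ.filter fun v : Fin n => B c v ∈ P).image (B c) := by
        intro y hy
        rw [mem_filter] at hy
        obtain ⟨h4, h5⟩ := hy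
        push Not at h5
        obtain ⟨v, hv⟩ := h5
        exact mem_image.2 ⟨v, mem_filter.2 ⟨mem_univ _, hv ▸ h4⟩, hv⟩
      exact (card_le_card h3).trans card_image_le
    have h3 : Ac B P J c ⊆ univ.filter fun v : Fin n => ¬ B c v ∈ P := by
      intro v hv
      exact mem_filter.2 ⟨mem_univ _, (mem_filter.1 hv).2⟩
    have h4 := card_le_card h3
    have h5 := card_filter_add_card_filter_not (s := (univ : Finset (Fin n)))
      (fun v => B c v ∈ P)
    rw [card_univ, Fintype.card_fin] at h5
    omega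
  have h2 := card_filter_add_card_filter_not (s := P) (fun y => ∀ v, B c v ≠ y)
  unfold del
  omega

/-- The choice of the cells that get a false name, and of their partners. -/
theorem exists_choice (hB : ∀ i, Function.Injective (B i)) (hP : P.card ≤ n) {R1 R0 : ℕ}
    (hR : R0 ≤ R1) {Q0 : Finset (Fin g)} (hQP : ∀ i ∈ Q0, ∀ z ∈ P, ∃ v, B i v = z)
    (hQ : ∀ z ∉ P, R1 < (miss B Q0 z).card) (J : Finset (Fin n))
    (hc : R1 * (n + 1) + ∑ c ∈ Mᶜ, del B P J c < Q0.card + R1 * P.card) (t : ℕ)
    (ht : t ≤ ∑ c ∈ Mᶜ, del B P J c) :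
    ∃ (Z : Finset (Fin g × Fin n)) (par : Fin g × Fin n → Fin g) (QQ RR : Finset (Fin g))
      (W : Finset (Fin k)), Z.card = t ∧
      (∀ e ∈ Z, e.1 ∉ M ∧ e.2 ∈ J ∧ B e.1 e.2 ∉ P) ∧
      (∀ c, (Z.filter fun e => e.1 = c).card ≤ del B P J c) ∧
      (∀ e ∈ Z, ∀ e' ∈ Z, par e = par e' → e = e') ∧
      (∀ e ∈ Z, par e ∈ Q0 ∧ par e ∉ QQ ∧ par e ∉ RR) ∧
      (∀ e ∈ Z, ∀ v, B (par e) v ≠ B e.1 e.2) ∧
      QQ ⊆ Q0 ∧ RR ⊆ Q0 ∧ Disjoint QQ RR ∧ P ⊆ W ∧ W.card ≤ n ∧
      (∀ i ∈ QQ, ∀ z ∈ W, ∃ v, B i v = z) ∧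
      (∀ z ∉ W, R1 < (miss B QQ z).card) ∧
      (∀ z ∈ W, z ∉ P → R0 ≤ (miss B RR z).card) ∧
      Q0.card + R1 * P.card ≤ QQ.card + R1 * W.card + t := by
  classical
  induction t with
  | zero =>
    have hne : Q0.Nonempty := by
      rw [← card_pos]
      have h1 : R1 * P.card ≤ R1 * n := Nat.mul_le_mul_left _ hP
      have h2 : R1 * (n + 1) = R1 * n + R1 := by ring
      omega
    obtain ⟨i, hi⟩ := hne
    refine ⟨∅, fun e => i, Q0, ∅, P, card_empty, fun e he => absurd he (notMem_empty e), ?_,
      fun e he => absurd he (notMem_empty e), fun e he => absurd he (notMem_empty e),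
      fun e he => absurd he (notMem_empty e), subset_refl _, empty_subset _,
      disjoint_empty_right _, subset_refl _, hP, hQP, hQ, fun z hz hz' => absurd hz hz', le_refl _⟩
    intro c
    rw [filter_empty, card_empty]
    exact Nat.zero_le _
  | succ t ih =>
    obtain ⟨Z, par, QQ, RR, W, z1, z2, z3, z4, z5, z6, z7, z8, z9, z10, z11, z12, z13, z14,
      z15⟩ := ih (by omega)
    -- a row with too few names
    obtain ⟨c, hcM, hlt⟩ : ∃ c ∈ Mᶜ, (Z.filter fun e => e.1 = c).card < del B P J c := by
      by_contra hcon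
      push Not at hcon
      have h1 : ∑ c ∈ Mᶜ, del B P J c ≤ ∑ c ∈ Mᶜ, (Z.filter fun e => e.1 = c).card :=
        sum_le_sum fun c hc => hcon c hc
      have h2 : ∑ c ∈ Mᶜ, (Z.filter fun e => e.1 = c).card = Z.card := by
        rw [card_eq_sum_card_fiberwise (f := Prod.fst) (t := Mᶜ)]
        intro e he
        exact mem_coe.2 (mem_compl.2 (z2 e (mem_coe.1 he)).1)
      omega
    -- a cell
    obtain ⟨v, hv1, hv2, hv3⟩ : ∃ v ∈ Ac B P J c, (c, v) ∉ Z ∧ B c v ∉ W := by
      by_contra hcon
      push Not at hcon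
      have h1 : Ac B P J c ⊆ ((Z.filter fun e => e.1 = c).image Prod.snd) ∪
          (univ.filter fun v : Fin n => B c v ∈ W \ P) := by
        intro v hv
        rw [mem_union]
        by_cases h2 : (c, v) ∈ Z
        · exact Or.inl (mem_image.2 ⟨(c, v), mem_filter.2 ⟨h2, rfl⟩, rfl⟩)
        · exact Or.inr (mem_filter.2 ⟨mem_univ _, mem_sdiff.2 ⟨hcon v hv h2,
            (mem_filter.1 hv).2⟩⟩)
      have h2 : (univ.filter fun v : Fin n => B c v ∈ W \ P).card ≤ (W \ P).card :=
        card_le_card_of_injOn (B c) (fun v hv => mem_coe.2 (mem_filter.1 (mem_coe.1 hv)).2)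
          (hB c).injOn
      have h3 := (card_le_card h1).trans (card_union_le _ _)
      have h4 : ((Z.filter fun e => e.1 = c).image Prod.snd).card ≤
          (Z.filter fun e => e.1 = c).card := card_image_le
      have h5 : (W \ P).card + P.card = W.card := card_sdiff_add_card_eq_card z10
      unfold del at hlt
      omega
    have hmiss := z13 _ hv3
    obtain ⟨i, hi⟩ : (miss B QQ (B c v)).Nonempty := card_pos.1 (by omega)
    rw [mem_miss] at hi
    have hW3 : R1 * W.card ≤ R1 * n := Nat.mul_le_mul_left _ z11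
    have hcard : (QQ.erase i).card + 1 = QQ.card := card_erase_add_one hi.1
    obtain ⟨QQ', W', q1, q2, q3, q4, q5, q6, q7, q8⟩ := close B hB (R1 := R1) (R0 := R0)
      (QQ := QQ.erase i) (RR := RR) (W := W) (fun i' hi' => z12 i' (mem_of_mem_erase hi')) (by
        intro z hz
        have h1 := z13 z hz
        have h2 : (miss B QQ z).erase i ⊆ miss B (RR ∪ QQ.erase i) z := by
          intro x hx
          rw [mem_erase, mem_miss] at hx
          rw [mem_miss, mem_union, mem_erase]
          exact ⟨Or.inr ⟨hx.1, hx.2.1⟩, hx.2.2⟩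
        have h3 := card_le_card h2
        have h4 := pred_card_le_card_erase (s := miss B QQ z) (a := i)
        omega) (by
        rw [Fintype.card_fin]
        have h1 : R1 * (n + 1 - W.card) + R1 * W.card = R1 * (n + 1) := by
          rw [← Nat.mul_add, Nat.sub_add_cancel (by omega)]
        omega)
    rw [Fintype.card_fin] at q3
    refine ⟨insert (c, v) Z, Function.update par (c, v) i, QQ', RR ∪ (QQ.erase i \ QQ'), W',
      ?_, ?_, ?_, ?_, ?_, ?_, ?_, ?_, ?_, ?_, ?_, ?_, ?_, ?_, ?_⟩
    · rw [card_insert_of_notMem hv2, z1]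
    · intro e he
      rcases mem_insert.1 he with rfl | he
      · exact ⟨mem_compl.1 hcM, (mem_filter.1 hv1).1, (mem_filter.1 hv1).2⟩
      · exact z2 e he
    · intro c'
      by_cases hcc : c = c'
      · subst hcc
        rw [filter_insert, if_pos rfl, card_insert_of_notMem]
        · exact hlt
        · exact fun h => hv2 (mem_filter.1 h).1
      · rw [filter_insert, if_neg hcc]
        exact z3 c'
    · have hpi : ∀ e ∈ Z, Function.update par (c, v) i e = par e := by
        intro e he
        refine Function.update_of_ne ?_ _ _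
        rintro rfl
        exact hv2 he
      intro e he e' he' h
      rcases mem_insert.1 he with rfl | he <;> rcases mem_insert.1 he' with rfl | he'
      · rfl
      · rw [Function.update_self, hpi e' he'] at h
        exact absurd hi.1 (h ▸ (z5 e' he').2.1)
      · rw [Function.update_self, hpi e he] at h
        exact absurd hi.1 (h ▸ (z5 e he).2.1)
      · rw [hpi e he, hpi e' he'] at h
        exact z4 e he e' he' h
    · intro e he
      rcases mem_insert.1 he with rfl | he
      · rw [Function.update_self]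
        refine ⟨z7 hi.1, fun h => (mem_erase.1 (q1 h)).1 rfl, fun h => ?_⟩
        rcases mem_union.1 h with h | h
        · exact disjoint_left.1 z9 hi.1 h
        · exact (mem_erase.1 (mem_sdiff.1 h).1).1 rfl
      · have hne : e ≠ (c, v) := fun h => hv2 (h ▸ he)
        rw [Function.update_of_ne hne]
        refine ⟨(z5 e he).1, fun h => (z5 e he).2.1 (mem_of_mem_erase (q1 h)), fun h => ?_⟩
        rcases mem_union.1 h with h | h
        · exact (z5 e he).2.2 h
        · exact (z5 e he).2.1 (mem_of_mem_erase (mem_sdiff.1 h).1)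
    · intro e he
      rcases mem_insert.1 he with rfl | he
      · rw [Function.update_self]
        exact hi.2
      · have hne : e ≠ (c, v) := fun h => hv2 (h ▸ he)
        rw [Function.update_of_ne hne]
        exact z6 e he
    · exact (q1.trans (erase_subset _ _)).trans z7
    · exact union_subset z8 (sdiff_subset.trans ((erase_subset _ _).trans z7))
    · rw [disjoint_union_right]
      refine ⟨disjoint_of_subset_left (q1.trans (erase_subset _ _)) z9, disjoint_sdiff⟩
    · exact z10.trans q2
    · exact q3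
    · exact q4
    · exact q5
    · intro z hz hzP
      by_cases hzW : z ∈ W
      · exact (z14 z hzW hzP).trans (card_le_card (miss_mono subset_union_left z))
      · exact q6 z hz hzW
    · omega

/-- The false names of a row. -/
theorem exists_row_names {c : Fin g} (hB : Function.Injective (B c)) (Zc : Finset (Fin n))
    (hZ : Zc.card ≤ (P.filter fun y => ∀ v, B c v ≠ y).card) :
    ∃ f : Fin n → Fin k, Function.Injective f ∧ (∀ v ∉ Zc, f v = B c v) ∧
      ∀ v ∈ Zc, f v ∈ P ∧ ∀ w, B c w ≠ f v := by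
  classical
  obtain ⟨h⟩ : Nonempty (Zc ↪ (P.filter fun y => ∀ v, B c v ≠ y)) := by
    apply Function.Embedding.nonempty_of_card_le
    rw [Fintype.card_coe, Fintype.card_coe]
    exact hZ
  have hin : ∀ x : Zc, (h x : Fin k) ∈ P ∧ ∀ w, B c w ≠ h x := fun x => mem_filter.1 (h x).2
  refine ⟨fun v => if hv : v ∈ Zc then (h ⟨v, hv⟩ : Fin k) else B c v, ?_, ?_, ?_⟩
  · intro v v' h1
    by_cases hv : v ∈ Zc <;> by_cases hv' : v' ∈ Zc
    · simp only [dif_pos hv, dif_pos hv'] at h1
      have h2 := h.injective (Subtype.ext h1)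
      exact congrArg Subtype.val h2
    · simp only [dif_pos hv, dif_neg hv'] at h1
      exact absurd h1.symm ((hin ⟨v, hv⟩).2 v')
    · simp only [dif_neg hv, dif_pos hv'] at h1
      exact absurd h1 ((hin ⟨v', hv'⟩).2 v)
    · simp only [dif_neg hv, dif_neg hv'] at h1
      exact hB h1
  · intro v hv
    exact dif_neg hv
  · intro v hv
    simp only [dif_pos hv]
    exact hin ⟨v, hv⟩

end Pool.Agent.FZ86
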