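import Pool.Agent.FZ86.Close
import Pool.Agent.FZ86.Setup

/-!
# Releasing pure rows (lem_ans 860, block (E), part E4)
-/

open Finset

set_option autoImplicit false
set_option linter.unusedSectionVars false

namespace Pool.Agent.FZ86

open Pool.Agent.Rl45 Pool.Agent.V3R Pool.Agent.GK71

section Gen

variable {R V S ι : Type*} [Fintype R] [DecidableEq R] [Fintype V] [DecidableEq V]
  [Fintype S] [DecidableEq S] [DecidableEq ι]

variable {a : R → V → S} {L : Finset (R × V)} {pr : ι → V → R} {M : Finset ι} {N D : ℕ}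
  {UU QQ RR J : Finset ι} {C H E : Finset (R × V)} {nm : R × V → S} {par : R × V → ι}

/-- a private cell keeps its symbol as name -/
theorem nm_priv (hc : Ctx a L pr) (h : Sta a L pr M N D UU QQ RR C H E nm par) {i : ι}
    {e : R × V} (he : pr i e.2 = e.1) : nm e = sm a e :=
  h.nmE e fun h1 => hc.prL i e.2 e (h.EL h1) he.symm

/-- the degrees after a release -/
theorem dg_release (hc : Ctx a L pr) (h : Sta a L pr M N D UU QQ RR C H E nm par) (i : ι)
    (y : S) :
    ((H ∪ cells (pr i)).filter fun e => nm e = y).card ≤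
      (H.filter fun e => nm e = y).card + 1 := by
  rw [filter_union]
  refine (card_union_le _ _).trans (Nat.add_le_add_left ?_ _)
  rw [card_le_one]
  intro e he e' he'
  rw [mem_filter, mem_cells] at he he'
  have h1 := nm_priv hc h he.1
  have h2 := nm_priv hc h he'.1
  have h3 : a (pr i e.2) e.2 = a (pr i e'.2) e'.2 := by
    rw [he.1, he'.1]
    exact h1.symm.trans (he.2.trans (he'.2.symm.trans h2))
  have h4 := hc.sec i _ _ h3
  exact Prod.ext (by rw [← he.1, ← he'.1, h4]) h4

theorem dg_release_of_miss (hc : Ctx a L pr) (h : Sta a L pr M N D UU QQ RR C H E nm par)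
    {i : ι} {y : S} (hy : ∀ v, a (pr i v) v ≠ y) :
    ((H ∪ cells (pr i)).filter fun e => nm e = y).card =
      (H.filter fun e => nm e = y).card := by
  congr 1
  rw [filter_union]
  apply union_eq_left.2
  intro e he
  exfalso
  rw [mem_filter, mem_cells] at he
  apply hy e.2
  rw [he.1]
  exact (nm_priv hc h he.1).symm.trans he.2

/-- A pure row is released. -/
theorem rel_sta (hc : Ctx a L pr) (h : Sta a L pr M N D UU QQ RR C H E nm par) {i : ι}
    (hi : i ∈ QQ) :
    Sta a L pr M N (D + 1) (insert i UU) (QQ.erase i) RR C (H ∪ cells (pr i)) E nm par where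
  cov := h.cov
  dj := by
    rw [disjoint_union_right]
    refine ⟨h.dj, ?_⟩
    rw [disjoint_right]
    intro e he
    exact h.notMem_C hc (fun h1 => disjoint_left.1 h.UQ h1 hi) (mem_cells.1 he)
  un := by
    rw [← union_assoc, h.un, prs_insert, union_assoc, union_comm (prs pr UU)]
  col := by
    intro v
    rw [filter_union, card_union_of_disjoint, h.col v, (hc.sec_pr i).col v]
    refine disjoint_filter_filter ?_
    rw [disjoint_right]
    intro e he
    exact h.notMem_H hc (fun h1 => disjoint_left.1 h.UQ h1 hi) (mem_cells.1 he)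
  deg := fun y => (dg_release hc h i y).trans (Nat.add_le_add_right (h.deg y) 1)
  lat := by
    intro e he e' he' h1 h2
    rcases mem_union.1 he with he | he <;> rcases mem_union.1 he' with he' | he'
    · exact h.lat e he e' he' h1 h2
    · rw [mem_cells] at he'
      have h3 := hc.row he' (h.un ▸ mem_union_right _ he) h1
      exact h3.1
    · rw [mem_cells] at he
      have h3 := hc.row he (h.un ▸ mem_union_right _ he') h1.symm
      exact h3.1.symm
    · exact (hc.sec_pr i).row e he e' he' h1
  nmE := h.nmE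
  EH := h.EH.trans subset_union_left
  EL := h.EL
  parM := h.parM
  parU := by
    intro e he h1
    apply h.parU e he
    rw [mem_union, mem_union] at h1 ⊢
    rcases h1 with (h1 | h1) | h1
    · rcases mem_insert.1 h1 with h1 | h1
      · exact Or.inl (Or.inr (h1 ▸ hi))
      · exact Or.inl (Or.inl h1)
    · exact Or.inl (Or.inr (mem_of_mem_erase h1))
    · exact Or.inr h1
  parS := h.parS
  parI := h.parI
  UM := insert_subset (h.QM hi) h.UM
  QM := (erase_subset _ _).trans h.QM
  RM := h.RM
  UQ := by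
    rw [disjoint_insert_left]
    exact ⟨notMem_erase _ _, disjoint_of_subset_right (erase_subset _ _) h.UQ⟩
  UR := by
    rw [disjoint_insert_left]
    exact ⟨fun h1 => disjoint_left.1 h.QR hi h1, h.UR⟩
  QR := disjoint_of_subset_left (erase_subset _ _) h.QR

/-- Rows of the pool are put into the reserve. -/
theorem move_sta (h : Sta a L pr M N D UU QQ RR C H E nm par) {QQ' : Finset ι}
    (hQ : QQ' ⊆ QQ) : Sta a L pr M N D UU QQ' (RR ∪ (QQ \ QQ')) C H E nm par where
  cov := h.cov
  dj := h.dj
  un := h.un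
  col := h.col
  deg := h.deg
  lat := h.lat
  nmE := h.nmE
  EH := h.EH
  EL := h.EL
  parM := h.parM
  parU := by
    intro e he h1
    apply h.parU e he
    rw [mem_union, mem_union] at h1 ⊢
    rcases h1 with (h1 | h1) | h1
    · exact Or.inl (Or.inl h1)
    · exact Or.inl (Or.inr (hQ h1))
    · rcases mem_union.1 h1 with h1 | h1
      · exact Or.inr h1
      · exact Or.inl (Or.inr (mem_sdiff.1 h1).1)
  parS := h.parS
  parI := h.parI
  UM := h.UM
  QM := hQ.trans h.QM
  RM := union_subset h.RM (sdiff_subset.trans h.QM)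
  UQ := disjoint_of_subset_right hQ h.UQ
  UR := by
    rw [disjoint_union_right]
    exact ⟨h.UR, disjoint_of_subset_right sdiff_subset h.UQ⟩
  QR := by
    rw [disjoint_union_right]
    exact ⟨disjoint_of_subset_left hQ h.QR, disjoint_sdiff⟩

end Gen

variable {g n k : ℕ} {B : Fin g → Fin n → Fin k} {M : Finset (Fin g)} {P W : Finset (Fin k)}
  {N D R1 R0 b : ℕ} {UU QQ RR : Finset (Fin g)} {C H E : Finset (Rw g n × Fin n)}
  {nm : Rw g n × Fin n → Fin k} {par : Rw g n × Fin n → Fin g}

/-- The conditions for the pool and the reserve. -/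
structure Pl (B : Fin g → Fin n → Fin k) (P : Finset (Fin k)) (R1 R0 b : ℕ)
    (W : Finset (Fin k)) (QQ RR : Finset (Fin g)) : Prop where
  PW : P ⊆ W
  Wn : W.card ≤ n
  QW : ∀ i ∈ QQ, ∀ z ∈ W, ∃ v, B i v = z
  pool : ∀ z ∉ W, R1 < (miss B QQ z).card
  res : ∀ z ∈ W, z ∉ P → R0 ≤ (miss B RR z).card
  bud : b ≤ QQ.card + R1 * W.card

/-- One row is taken from the pool, then the pool is closed. -/
theorem Pl.take (hB : ∀ i, Function.Injective (B i)) (h : Pl B P R1 R0 (b + 1) W QQ RR)
    (hR : R0 ≤ R1) (hb : R1 * (n + 1) < b) {i : Fin g} (hi : i ∈ QQ) :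
    ∃ QQ' W', QQ' ⊆ QQ.erase i ∧ W ⊆ W' ∧ Pl B P R1 R0 b W' QQ' (RR ∪ (QQ.erase i \ QQ')) := by
  classical
  have hcard : (QQ.erase i).card + 1 = QQ.card := card_erase_add_one hi
  have hbud := h.bud
  obtain ⟨QQ', W', q1, q2, q3, q4, q5, q6, q7, q8⟩ := close B hB (R1 := R1) (R0 := R0)
    (QQ := QQ.erase i) (RR := RR) (W := W) (fun i' hi' => h.QW i' (mem_of_mem_erase hi')) (by
      intro z hz
      have h1 := h.pool z hz
      have h2 : (miss B QQ z).erase i ⊆ miss B (RR ∪ QQ.erase i) z := by
        intro x hx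
        rw [mem_erase, mem_miss] at hx
        rw [mem_miss, mem_union, mem_erase]
        exact ⟨Or.inr ⟨hx.1, hx.2.1⟩, hx.2.2⟩
      have h3 := card_le_card h2
      have h4 := pred_card_le_card_erase (s := miss B QQ z) (a := i)
      omega) (by
      rw [Fintype.card_fin]
      have h0 := h.Wn
      have h1 : R1 * (n + 1 - W.card) + R1 * W.card = R1 * (n + 1) := by
        rw [← Nat.mul_add, Nat.sub_add_cancel (by omega)]
      omega)
  rw [Fintype.card_fin] at q3
  refine ⟨QQ', W', q1, q2, h.PW.trans q2, q3, q4, q5, ?_, by omega⟩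
  intro z hz hzP
  by_cases hzW : z ∈ W
  · exact (h.res z hzW hzP).trans (card_le_card (miss_mono subset_union_left z))
  · exact q6 z hz hzW

/-- the symbols without slot that are not frozen -/
def tight (W : Finset (Fin k)) (H : Finset (Rw g n × Fin n)) (nm : Rw g n × Fin n → Fin k)
    (D : ℕ) : Finset (Fin k) :=
  univ.filter fun y => y ∉ W ∧ (H.filter fun e => nm e = y).card = D

/-- The other cells are not changed. -/
def Same (M : Finset (Fin g)) (H H' : Finset (Rw g n × Fin n)) : Prop :=
  ∀ e, e ∈ Lc M → (e ∈ H' ↔ e ∈ H)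

theorem same_release (M : Finset (Fin g)) (H : Finset (Rw g n × Fin n)) (i : Fin g) :
    Same M H (H ∪ cells (prv i)) := by
  intro e he
  rw [mem_union, mem_cells]
  constructor
  · rintro (h | h)
    · exact h
    · exfalso
      obtain ⟨c, -, h1⟩ := mem_Lc.1 he
      rw [h1] at h
      exact Sum.inr_ne_inl h
  · exact Or.inl

theorem Same.trans {H H' H'' : Finset (Rw g n × Fin n)} (h : Same M H H') (h' : Same M H' H'') :
    Same M H H'' := fun e he => (h' e he).trans (h e he)

/-- `t` rows are released. -/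
theorem release_many (hB : ∀ i, Function.Injective (B i))
    (h : Sta (ext B) (Lc M) prv M N D UU QQ RR C H E nm par) (t : ℕ)
    (hp : Pl B P R1 R0 (b + t) W QQ RR) (hR : R0 ≤ R1) (hb : R1 * (n + 1) < b) :
    ∃ (UU' QQ' RR' : Finset (Fin g)) (H' : Finset (Rw g n × Fin n)) (W' : Finset (Fin k)),
      Sta (ext B) (Lc M) prv M N (D + t) UU' QQ' RR' C H' E nm par ∧
      Pl B P R1 R0 b W' QQ' RR' ∧ Same M H H' ∧ W ⊆ W' := by
  classical
  induction t generalizing D UU QQ RR H W with
  | zero => exact ⟨UU, QQ, RR, H, W, h, hp, fun _ _ => Iff.rfl, subset_refl _⟩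
  | succ t ih =>
    obtain ⟨i, hi⟩ : QQ.Nonempty := by
      rw [← card_pos]
      have h1 := hp.bud
      have h2 : R1 * W.card ≤ R1 * n := Nat.mul_le_mul_left _ hp.Wn
      have h3 : R1 * (n + 1) = R1 * n + R1 := by ring
      omega
    obtain ⟨QQ', W', g1, g2, g3⟩ := hp.take (b := b + t) hB hR (by omega) hi
    obtain ⟨UU'', QQ'', RR'', H'', W'', f1, f2, f3, f4⟩ :=
      ih (move_sta (rel_sta (ctx hB M) h hi) g1) g3
    refine ⟨UU'', QQ'', RR'', H'', W'', ?_, f2, (same_release M H i).trans f3, g2.trans f4⟩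
    have h1 : D + (t + 1) = D + 1 + t := by omega
    rw [h1]
    exact f1

/-- Rows are released until all symbols that are not frozen have a slot. -/
theorem release_slots (hB : ∀ i, Function.Injective (B i))
    (h : Sta (ext B) (Lc M) prv M N D UU QQ RR C H E nm par) (t : ℕ)
    (ht : (tight W H nm D).card ≤ t)
    (hp : Pl B P R1 R0 (b + t) W QQ RR) (hR : R0 ≤ R1) (hb : R1 * (n + 1) < b) :
    ∃ (D' : ℕ) (UU' QQ' RR' : Finset (Fin g)) (H' : Finset (Rw g n × Fin n))
      (W' : Finset (Fin k)), D ≤ D' ∧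
      Sta (ext B) (Lc M) prv M N D' UU' QQ' RR' C H' E nm par ∧
      Pl B P R1 R0 b W' QQ' RR' ∧ Same M H H' ∧ W ⊆ W' ∧
      ∀ y ∉ W', (H'.filter fun e => nm e = y).card < D' := by
  classical
  induction t generalizing D UU QQ RR H W with
  | zero =>
    refine ⟨D, UU, QQ, RR, H, W, le_refl _, h, hp, fun _ _ => Iff.rfl, subset_refl _, ?_⟩
    intro y hy
    refine lt_of_le_of_ne (h.deg y) fun h1 => ?_
    have h2 : y ∈ tight W H nm D := mem_filter.2 ⟨mem_univ _, hy, h1⟩
    exact absurd (card_pos.2 ⟨y, h2⟩) (by omega)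
  | succ t ih =>
    by_cases hT : tight W H nm D = ∅
    · refine ⟨D, UU, QQ, RR, H, W, le_refl _, h, ⟨hp.PW, hp.Wn, hp.QW, hp.pool, hp.res, ?_⟩,
        fun _ _ => Iff.rfl, subset_refl _, ?_⟩
      · have := hp.bud
        omega
      · intro y hy
        refine lt_of_le_of_ne (h.deg y) fun h1 => ?_
        have h2 : y ∈ tight W H nm D := mem_filter.2 ⟨mem_univ _, hy, h1⟩
        rw [hT] at h2
        exact notMem_empty _ h2
    · obtain ⟨z, hz⟩ := nonempty_iff_ne_empty.2 hT
      have hz' := (mem_filter.1 hz).2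
      obtain ⟨i, hi⟩ : (miss B QQ z).Nonempty := by
        rw [← card_pos]
        have := hp.pool z hz'.1
        omega
      rw [mem_miss] at hi
      obtain ⟨QQ', W', g1, g2, g3⟩ := hp.take (b := b + t) hB hR (by omega) hi.1
      have hsub : tight W' (H ∪ cells (prv i)) nm (D + 1) ⊆ (tight W H nm D).erase z := by
        intro y hy
        obtain ⟨-, hy1, hy2⟩ := mem_filter.1 hy
        rw [mem_erase]
        constructor
        · rintro rfl
          rw [dg_release_of_miss (ctx hB M) h hi.2] at hy2
          omega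
        · refine mem_filter.2 ⟨mem_univ _, fun h1 => hy1 (g2 h1), ?_⟩
          have h1 := dg_release (ctx hB M) h i y
          have h2 := h.deg y
          omega
      have hcard := card_le_card hsub
      rw [card_erase_of_mem hz] at hcard
      obtain ⟨D'', UU'', QQ'', RR'', H'', W'', f0, f1, f2, f3, f4, f5⟩ :=
        ih (move_sta (rel_sta (ctx hB M) h hi.1) g1) (by omega) g3
      exact ⟨D'', UU'', QQ'', RR'', H'', W'', by omega, f1, f2,
        (same_release M H i).trans f3, g2.trans f4, f5⟩

/-- At most `n` symbols have no slot. -/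
theorem card_tight_le (h : Sta (ext B) (Lc M) prv M N D UU QQ RR C H E nm par) (hD : 0 < D) :
    (tight W H nm D).card ≤ n := by
  classical
  have h1 : H.card = n * D := by
    rw [card_eq_sum_card_fiberwise (f := Prod.snd) (t := (Finset.univ : Finset (Fin n)))
      (fun _ _ => mem_univ _), sum_congr rfl fun v _ => h.col v, sum_const, card_univ,
      Fintype.card_fin, smul_eq_mul]
  have h2 : (tight W H nm D).card * D ≤ H.card := by
    calc (tight W H nm D).card * D
        = ∑ y ∈ tight W H nm D, (H.filter fun e => nm e = y).card := by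
          rw [sum_congr rfl fun y hy => (mem_filter.1 hy).2.2, sum_const, smul_eq_mul]
      _ ≤ ∑ y : Fin k, (H.filter fun e => nm e = y).card :=
          sum_le_sum_of_subset (subset_univ _)
      _ = H.card := (card_eq_sum_card_fiberwise (fun _ _ => mem_univ _)).symm
  rw [h1] at h2
  exact Nat.le_of_mul_le_mul_right h2 hD

end Pool.Agent.FZ86
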