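import Pool.Agent.FZ86.Names
import Pool.Agent.FZ86.Release
import Pool.Agent.GS66.Greedy
import Pool.Agent.V98.Phase2
import Pool.Agent.MM84.Repair

/-!
# The start of the process (lem_ans 860, block (E))
-/

open Finset

set_option autoImplicit false
set_option linter.unusedSectionVars false

namespace Pool.Agent.FZ86

open Pool.Agent.Rl45 Pool.Agent.V3R Pool.Agent.GK71

variable {g n k : ℕ} {B : Fin g → Fin n → Fin k} {M : Finset (Fin g)} {P : Finset (Fin k)}

/-- the cells of `Z` in the extended array -/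
def zc (Z : Finset (Fin g × Fin n)) : Finset (Rw g n × Fin n) :=
  Z.image fun p => ((Sum.inl p.1 : Rw g n), p.2)

theorem mem_zc {Z : Finset (Fin g × Fin n)} {e : Rw g n × Fin n} :
    e ∈ zc Z ↔ ∃ c, e.1 = Sum.inl c ∧ (c, e.2) ∈ Z := by
  unfold zc
  rw [mem_image]
  constructor
  · rintro ⟨p, hp, rfl⟩
    exact ⟨p.1, rfl, hp⟩
  · rintro ⟨c, h1, h2⟩
    exact ⟨(c, e.2), h2, Prod.ext h1.symm rfl⟩

theorem zc_inl {Z : Finset (Fin g × Fin n)} {c : Fin g} {v : Fin n} :
    ((Sum.inl c, v) : Rw g n × Fin n) ∈ zc Z ↔ (c, v) ∈ Z := by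
  rw [mem_zc]
  constructor
  · rintro ⟨c', h, h'⟩
    have h1 : c = c' := Sum.inl_injective h
    rw [h1]
    exact h'
  · intro h
    exact ⟨c, rfl, h⟩

/-- the partners of the named cells -/
def parE (par : Fin g × Fin n → Fin g) (e : Rw g n × Fin n) : Fin g :=
  Sum.elim (fun c => par (c, e.2)) (fun p => p.1) e.1

/-- the named array -/
def nmA (B f : Fin g → Fin n → Fin k) : Rw g n → Fin n → Fin k :=
  Sum.elim f fun p => B p.1

/-- The names, the partners and the pool at the beginning. -/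
theorem exists_named (hB : ∀ i, Function.Injective (B i)) (hP : P.card ≤ n) {R1 R0 : ℕ}
    (hR : R0 ≤ R1) {Q0 : Finset (Fin g)} (hQP : ∀ i ∈ Q0, ∀ z ∈ P, ∃ v, B i v = z)
    (hQ : ∀ z ∉ P, R1 < (miss B Q0 z).card) (J : Finset (Fin n))
    (hc : R1 * (n + 1) + ∑ c ∈ Mᶜ, del B P J c < Q0.card + R1 * P.card) :
    ∃ (Z : Finset (Fin g × Fin n)) (f : Fin g → Fin n → Fin k) (par : Fin g × Fin n → Fin g)
      (QQ RR : Finset (Fin g)) (W : Finset (Fin k)),
      (∀ c, Function.Injective (f c)) ∧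
      (∀ c v, (c, v) ∉ Z → f c v = B c v) ∧
      (∀ e ∈ Z, e.1 ∉ M ∧ e.2 ∈ J ∧ f e.1 e.2 ∈ P) ∧
      (∀ c, c ∉ M → ((univ : Finset (Fin n)).filter fun v => v ∈ J ∧ f c v ∉ P).card + P.card ≤
        n + 1) ∧
      (∀ e ∈ Z, ∀ e' ∈ Z, par e = par e' → e = e') ∧
      (∀ e ∈ Z, par e ∈ Q0 ∧ par e ∉ QQ ∧ par e ∉ RR) ∧
      (∀ e ∈ Z, ∀ v, B (par e) v ≠ B e.1 e.2) ∧
      QQ ⊆ Q0 ∧ RR ⊆ Q0 ∧ Disjoint QQ RR ∧
      ∀ b, b + ∑ c ∈ Mᶜ, del B P J c ≤ Q0.card + R1 * P.card → Pl B P R1 R0 b W QQ RR := by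
  classical
  obtain ⟨Z, par, QQ, RR, W, z1, z2, z3, z4, z5, z6, z7, z8, z9, z10, z11, z12, z13, z14,
    z15⟩ := exists_choice (M := M) hB hP hR hQP hQ J hc _ le_rfl
  -- every row has its names
  have hfull : ∀ c ∈ Mᶜ, (Z.filter fun e => e.1 = c).card = del B P J c := by
    have h1 : ∑ c ∈ Mᶜ, (Z.filter fun e => e.1 = c).card = ∑ c ∈ Mᶜ, del B P J c := by
      rw [← z1, card_eq_sum_card_fiberwise (s := Z) (f := Prod.fst) (t := Mᶜ)]
      intro e he
      exact mem_coe.2 (mem_compl.2 (z2 e (mem_coe.1 he)).1)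
    exact (sum_eq_sum_iff_of_le fun c _ => z3 c).1 h1
  have hcol : ∀ c, ((Z.filter fun e => e.1 = c).image Prod.snd).card =
      (Z.filter fun e => e.1 = c).card := by
    intro c
    refine card_image_of_injOn ?_
    intro e he e' he' h
    have h1 := (mem_filter.1 (mem_coe.1 he)).2
    have h2 := (mem_filter.1 (mem_coe.1 he')).2
    exact Prod.ext (h1.trans h2.symm) h
  have hmem : ∀ c v, v ∈ (Z.filter fun e => e.1 = c).image Prod.snd ↔ (c, v) ∈ Z := by
    intro c v
    rw [mem_image]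
    constructor
    · rintro ⟨e, he, rfl⟩
      rw [mem_filter] at he
      have h1 : (c, e.2) = e := Prod.ext he.2.symm rfl
      rw [h1]
      exact he.1
    · intro h
      exact ⟨(c, v), mem_filter.2 ⟨h, rfl⟩, rfl⟩
  choose f hf1 hf2 hf3 using fun c => exists_row_names (P := P) (B := B) (c := c) (hB c)
    ((Z.filter fun e => e.1 = c).image Prod.snd)
    ((hcol c).le.trans ((z3 c).trans (del_le J c)))
  refine ⟨Z, f, par, QQ, RR, W, hf1, ?_, ?_, ?_, z4, z5, z6, z7, z8, z9, ?_⟩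
  · intro c v h
    exact hf2 c v fun h1 => h ((hmem c v).1 h1)
  · intro e he
    refine ⟨(z2 e he).1, (z2 e he).2.1, ?_⟩
    exact (hf3 e.1 e.2 ((hmem e.1 e.2).2 he)).1
  · intro c hcM
    have h1 : (((univ : Finset (Fin n)).filter fun v => v ∈ J ∧ f c v ∉ P).card) +
        (Z.filter fun e => e.1 = c).card ≤ (Ac B P J c).card := by
      rw [← hcol c, ← card_union_of_disjoint]
      · refine card_le_card ?_
        intro v hv
        rcases mem_union.1 hv with hv | hv
        · obtain ⟨-, h2, h3⟩ := mem_filter.1 hv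
          refine mem_filter.2 ⟨h2, ?_⟩
          by_cases h4 : v ∈ (Z.filter fun e => e.1 = c).image Prod.snd
          · exact absurd (hf3 c v h4).1 h3
          · rw [← hf2 c v h4]
            exact h3
        · have h2 := z2 _ ((hmem c v).1 hv)
          exact mem_filter.2 ⟨h2.2.1, h2.2.2⟩
      · rw [disjoint_left]
        intro v hv hv'
        exact (mem_filter.1 hv).2.2 (hf3 c v hv').1
    rw [hfull c (mem_compl.2 hcM)] at h1
    unfold del at h1
    omega
  · intro b hb
    exact ⟨z10, z11, z12, z13, z14, by omega⟩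

/-- The sum of the false names. -/
theorem start (hn : 1 ≤ n) (hB : ∀ i, Function.Injective (B i)) (M : Finset (Fin g))
    {R₀ c : ℕ} (hR0 : 3 * n ≤ R₀ + 1)
    (hM : (R₀ + 3) * (n + 1) + 4 * (n * D0 n) + n * (D0 n + 2 * n) + 2 * n + c < M.card) :
    ∃ (P : Finset (Fin k)) (Jp : Finset (Fin n)) (x : V98.Dt (Rw g n) (Fin n) (Fin k) (Fin g)),
      V98.Rich (ext B) (Lc M) P Jp (D0 n) ∧
      V98.Ext (ext B) (Lc M) prv M P (R₀ + 3) (3 * n) x ∧
      V98.Ph2 (ext B) (Lc M) P Jp (D0 n) x ∧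
      V98.Bud (Lc M) (R₀ + 3) c x := by
  classical
  -- the set `P`
  obtain ⟨Q0, P, p1, -, p3, p4, p5, -, p7, p8⟩ := close B hB (R1 := R₀ + 3) (R0 := 0)
    (QQ := M) (RR := ∅) (W := ∅) (fun _ _ z hz => absurd hz (notMem_empty z))
    (fun _ _ => Nat.zero_le _) (by
      rw [Fintype.card_fin, card_empty, Nat.sub_zero]
      omega)
  rw [Fintype.card_fin] at p3
  rw [card_empty, Nat.mul_zero, Nat.add_zero] at p8
  set τ := D0 n + 2 * n with hτ
  set Jp := poor B M P τ with hJp
  have hdel : ∑ c ∈ Mᶜ, del B P Jp c ≤ n * τ := sum_del_le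
  have hP1 : (R₀ + 3) * P.card ≤ (R₀ + 3) * n := Nat.mul_le_mul_left _ p3
  have hexp : (R₀ + 3) * (n + 1) = (R₀ + 3) * n + (R₀ + 3) := by ring
  set b := (R₀ + 3) * (n + 1) + 4 * (n * D0 n) + c + 1 with hb
  obtain ⟨Z, f, par, QQ, RR, W, z1, z2, z3, z4, z5, z6, z7, z8, z9, z10, z11⟩ :=
    exists_named (M := M) hB p3 (R0 := 3 * n) (by omega) p4 p5 Jp (by omega)
  have hPl := z11 (b + n + n) (by omega)
  -- the named array
  have ha' : ∀ r, Function.Injective (nmA B f r) := by
    intro r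
    rcases r with c | p
    · exact z1 c
    · exact hB p.1
  have haa : ∀ e, e ∉ zc Z → sm (nmA B f) e = sm (ext B) e := by
    rintro ⟨r, v⟩ he
    rcases r with c | p
    · exact z2 c v fun h => he (zc_inl.2 h)
    · rfl
  have hpe : ∀ e ∈ zc Z, ∃ z ∈ Z, e = ((Sum.inl z.1 : Rw g n), z.2) ∧ parE par e = par z := by
    intro e he
    obtain ⟨c, h1, h2⟩ := mem_zc.1 he
    refine ⟨(c, e.2), h2, Prod.ext h1 rfl, ?_⟩
    unfold parE
    rw [h1]
    rfl
  have hpi : ∀ e ∈ zc Z, ∀ e' ∈ zc Z, parE par e = parE par e' → e = e' := by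
    intro e he e' he' h
    obtain ⟨z, hz, h1, h2⟩ := hpe e he
    obtain ⟨z', hz', h1', h2'⟩ := hpe e' he'
    rw [h2, h2'] at h
    rw [h1, h1', z5 z hz z' hz' h]
  have hpm : ∀ e ∈ zc Z, ∀ v, ext B (prv (parE par e) v) v ≠ sm (ext B) e := by
    intro e he v
    obtain ⟨z, hz, h1, h2⟩ := hpe e he
    rw [ext_prv, h2, h1]
    exact z7 z hz v
  obtain ⟨N, d, H, g1, g2, g3, g4, g5, g6⟩ := GS66.named_greedy hn M (Lc M) (fun _ => mem_Lc)
    (sm (nmA B f)) (fun c _ v v' h => z1 c h)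
  have g4' : Cov (nmA B f) N (Lc M \ H) := g4
  have hrep := MM84.repair (ctx hB M) ha' (zc Z) (parE par) hpi hpm haa N (Lc M \ H)
    sdiff_subset g4'
  set X := (Lc M \ H) ∩ zc Z with hX
  set UU := X.image (parE par) with hUU
  set E := H ∩ zc Z with hE
  have hnm : ∀ e ∈ H, (if e ∈ E then sm (nmA B f) e else sm (ext B) e) = sm (nmA B f) e := by
    intro e he
    split_ifs with h1
    · rfl
    · exact (haa e fun h2 => h1 (mem_inter.2 ⟨he, h2⟩)).symm
  have hsta : Sta (ext B) (Lc M) prv M (N + X.card) d UU QQ RR (Lc M \ H ∪ prs prv UU) H E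
      (fun e => if e ∈ E then sm (nmA B f) e else sm (ext B) e) (parE par) := by
    refine ⟨hrep, ?_, ?_, g5, ?_, ?_, ?_, inter_subset_left, ?_, ?_, ?_, ?_, ?_, ?_, ?_, ?_, ?_,
      ?_, z10⟩
    · rw [disjoint_union_left]
      refine ⟨sdiff_disjoint, ?_⟩
      rw [disjoint_left]
      intro e he he'
      obtain ⟨i, -, h1⟩ := mem_prs.1 he
      exact (ctx hB M).prL i e.2 e (g3 he') h1.symm
    · rw [union_right_comm, sdiff_union_of_subset g3]
    · intro y
      refine le_trans (le_of_eq ?_) (g6 y)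
      congr 1
      refine filter_congr fun e he => ?_
      rw [hnm e he]
    · intro e he e' he' h1 h2
      rw [hnm e he, hnm e' he'] at h2
      refine Prod.ext h1 (ha' e.1 ?_)
      have h3 : nmA B f e.1 e.2 = nmA B f e'.1 e'.2 := h2
      rw [h1] at h3 ⊢
      exact h3
    · intro e he
      exact if_neg he
    · exact inter_subset_left.trans g3
    · intro e he
      obtain ⟨z, hz, -, h2⟩ := hpe e (mem_inter.1 he).2
      rw [h2]
      exact p1 (z6 z hz).1
    · intro e he h1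
      obtain ⟨z, hz, -, h2⟩ := hpe e (mem_inter.1 he).2
      rw [mem_union, mem_union] at h1
      rcases h1 with (h1 | h1) | h1
      · obtain ⟨e', he', h3⟩ := mem_image.1 h1
        have h4 := hpi e' (mem_inter.1 he').2 e (mem_inter.1 he).2 h3
        rw [h4] at he'
        exact (mem_sdiff.1 (mem_inter.1 he').1).2 (mem_inter.1 he).1
      · rw [h2] at h1
        exact (z6 z hz).2.1 h1
      · rw [h2] at h1
        exact (z6 z hz).2.2 h1
    · exact fun e he => hpm e (mem_inter.1 he).2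
    · exact fun e he e' he' => hpi e (mem_inter.1 he).2 e' (mem_inter.1 he').2
    · intro i hi
      obtain ⟨e, he, rfl⟩ := mem_image.1 hi
      obtain ⟨z, hz, -, h2⟩ := hpe e (mem_inter.1 he).2
      rw [h2]
      exact p1 (z6 z hz).1
    · exact z8.trans p1
    · exact z9.trans p1
    · rw [disjoint_left]
      intro i hi
      obtain ⟨e, he, rfl⟩ := mem_image.1 hi
      obtain ⟨z, hz, -, h2⟩ := hpe e (mem_inter.1 he).2
      rw [h2]
      exact (z6 z hz).2.1
    · rw [disjoint_left]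
      intro i hi
      obtain ⟨e, he, rfl⟩ := mem_image.1 hi
      obtain ⟨z, hz, -, h2⟩ := hpe e (mem_inter.1 he).2
      rw [h2]
      exact (z6 z hz).2.2
  -- the releases
  obtain ⟨UU₁, QQ₁, RR₁, H₁, W₁, s1, s2, s3, -⟩ := release_many hB hsta n hPl (by omega)
    (by omega)
  obtain ⟨D₂, UU₂, QQ₂, RR₂, H₂, W₂, t0, t1, t2, t3, -, t5⟩ := release_slots hB s1 n
    (card_tight_le s1 (by omega)) s2 (by omega) (by omega)
  have hH : H₂ ∩ Lc M = H := by
    ext e
    rw [mem_inter]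
    constructor
    · rintro ⟨h1, h2⟩
      exact (s3 e h2).1 ((t3 e h2).1 h1)
    · intro h1
      have h2 := g3 h1
      exact ⟨(t3 e h2).2 ((s3 e h2).2 h1), h2⟩
  have hHcard : H.card ≤ n * D0 n := by
    have h1 : H.card = n * d := by
      rw [card_eq_sum_card_fiberwise (f := Prod.snd) (t := (Finset.univ : Finset (Fin n)))
        (fun _ _ => mem_univ _), sum_congr rfl fun v _ => g5 v, sum_const, card_univ,
        Fintype.card_fin, smul_eq_mul]
    rw [h1]
    exact Nat.mul_le_mul_left _ g2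
  refine ⟨P, Jp, ⟨N + X.card, D₂, UU₂, QQ₂, RR₂, Lc M \ H ∪ prs prv UU, H₂, E,
    fun e => if e ∈ E then sm (nmA B f) e else sm (ext B) e, parE par, W₂⟩, ?_, ?_, ?_, ?_⟩
  · -- rich columns
    intro v hv
    rw [Fintype.card_fin]
    have h1 : τ < (Mᶜ.filter fun c => B c v ∉ P).card := by
      by_contra h2
      exact hv (mem_filter.2 ⟨mem_univ _, not_lt.1 h2⟩)
    refine h1.trans_le ?_
    refine card_le_card_of_injOn (fun c => ((Sum.inl c : Rw g n), v)) ?_ ?_
    · intro c hc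
      rw [mem_coe, mem_filter] at hc ⊢
      exact ⟨Lc_inl.2 (mem_compl.1 hc.1), rfl, hc.2⟩
    · intro c _ c' _ h
      exact Sum.inl_injective (Prod.mk.inj h).1
  · refine ⟨t1, t2.PW, t2.QW, t5, ?_, t2.pool, t2.res, ?_, ?_⟩
    · intro e he
      have h1 : (if e ∈ E then sm (nmA B f) e else sm (ext B) e) = sm (nmA B f) e := if_pos he
      obtain ⟨z, hz, h2, -⟩ := hpe e (mem_inter.1 he).2
      change (if e ∈ E then sm (nmA B f) e else sm (ext B) e) ∈ W₂
      rw [h1, h2]
      exact t2.PW (z3 z hz).2.2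
    · rw [Fintype.card_fin]
      change n ≤ D₂
      omega
    · rw [Fintype.card_fin]
      exact t2.Wn
  · refine ⟨?_, ?_, ?_⟩
    · intro e he
      have h1 : (if e ∈ E then sm (nmA B f) e else sm (ext B) e) = sm (nmA B f) e := if_pos he
      obtain ⟨z, hz, h2, -⟩ := hpe e (mem_inter.1 he).2
      change (if e ∈ E then sm (nmA B f) e else sm (ext B) e) ∈ P
      rw [h1, h2]
      exact (z3 z hz).2.2
    · intro v
      change ((H₂ ∩ Lc M).filter fun e => e.2 = v).card ≤ D0 n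
      rw [hH, g5 v]
      exact g2
    · intro r
      change ((H₂ ∩ Lc M).filter fun e => e.1 = r ∧
        (if e ∈ E then sm (nmA B f) e else sm (ext B) e) ∉ P ∧ e.2 ∈ Jp).card + P.card ≤ _
      rw [hH, Fintype.card_fin]
      by_cases hr : ∃ c, c ∉ M ∧ r = Sum.inl c
      · obtain ⟨c, hcM, rfl⟩ := hr
        refine (Nat.add_le_add_right ?_ _).trans (z4 c hcM)
        refine card_le_card_of_injOn Prod.snd ?_ ?_
        · intro e he
          rw [mem_coe, mem_filter] at he
          rw [mem_coe, mem_filter]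
          refine ⟨mem_univ _, he.2.2.2, ?_⟩
          have h1 := he.2.2.1
          rw [hnm e he.1] at h1
          have h2 : sm (nmA B f) e = f c e.2 := by
            unfold sm
            rw [he.2.1]
            rfl
          rw [h2] at h1
          exact h1
        · intro e he e' he' h
          rw [mem_coe, mem_filter] at he he'
          exact Prod.ext (he.2.1.trans he'.2.1.symm) h
      · have h1 : (H.filter fun e => e.1 = r ∧
            (if e ∈ E then sm (nmA B f) e else sm (ext B) e) ∉ P ∧ e.2 ∈ Jp) = ∅ := by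
          rw [eq_empty_iff_forall_notMem]
          intro e he
          rw [mem_filter] at he
          obtain ⟨c, hcM, h2⟩ := mem_Lc.1 (g3 he.1)
          exact hr ⟨c, hcM, he.2.1.symm.trans h2⟩
        rw [h1, card_empty]
        omega
  · unfold V98.Bud
    have h1 : (V98.bb (Lc M) (⟨N + X.card, D₂, UU₂, QQ₂, RR₂, Lc M \ H ∪ prs prv UU, H₂, E,
        fun e => if e ∈ E then sm (nmA B f) e else sm (ext B) e, parE par, W₂⟩ :
        V98.Dt (Rw g n) (Fin n) (Fin k) (Fin g))).card ≤ H.card := by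
      refine card_le_card ?_
      intro e he
      have h2 := (mem_filter.1 he).1
      have h3 : e ∈ H₂ ∩ Lc M := h2
      rw [hH] at h3
      exact h3
    have h2 := t2.bud
    change (R₀ + 3) * (Fintype.card (Fin n) + 1) + 3 * (H₂ ∩ Lc M).card + _ + c <
      QQ₂.card + (R₀ + 3) * W₂.card
    rw [hH, Fintype.card_fin]
    omega

end Pool.Agent.FZ86
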